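import Mathlib

/-!
# Variable Szeged and Wiener indices: the zero need not be unique

There is a connected, non-complete graph with at least three real numbers `α` such that
`Sz^α(G) = W^α(G)`. The graph: a cocktail party graph on `1500000` vertices and a complete
graph on `100000` vertices, joined by a path with `63` inner vertices (both end vertices of the
path are adjacent to all vertices of the respective part).
-/

set_option autoImplicit false

namespace Pool.Agent.Results.MP_dd6dde_co.ThreeZeros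

open Finset
open scoped Classical

section Defs

variable {V : Type} [Fintype V]

/-- `n_u(e)` for `e = uv`: the number of vertices `w` with `d(w,u) < d(w,v)`. -/
noncomputable def closer (G : SimpleGraph V) (u v : V) : ℕ :=
  (univ.filter (fun w => G.dist w u < G.dist w v)).card

/-- `Sz^α(G)`: the sum over the edges `e = uv` of `(n_u(e) n_v(e))^α`. -/
noncomputable def Sz (G : SimpleGraph V) (α : ℝ) : ℝ :=
  ∑ e ∈ G.edgeFinset, Sym2.lift ⟨fun u v => ((closer G u v : ℝ) * (closer G v u : ℝ)) ^ α,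
    fun u v => by simp only [mul_comm]⟩ e

/-- `W^α(G)`: the sum over the unordered pairs `{x, y}` of distinct vertices of `d(x,y)^α`. -/
noncomputable def W (G : SimpleGraph V) (α : ℝ) : ℝ :=
  ∑ p ∈ (univ : Finset (Sym2 V)).filter (fun p => ¬ p.IsDiag),
    Sym2.lift ⟨fun x y => (G.dist x y : ℝ) ^ α, fun x y => by simp only [G.dist_comm]⟩ p

end Defs

section General

variable {V : Type} [Fintype V]

/-- sums over edges as half of sums over ordered pairs -/
lemma sum_edge (G : SimpleGraph V) (s : Finset (Sym2 V)) (hs : ∀ e, e ∈ s ↔ e ∈ G.edgeSet)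
    (f : V → V → ℝ) (hf : ∀ u v, f u v = f v u) :
    ∑ e ∈ s, Sym2.lift ⟨f, hf⟩ e = (1 / 2) * ∑ u, ∑ v, if G.Adj u v then f u v else 0 := by
  have h1 : ∑ d : G.Dart, f d.fst d.snd = 2 * ∑ e ∈ s, Sym2.lift ⟨f, hf⟩ e := by
    have h2 : ∀ d : G.Dart, f d.fst d.snd = Sym2.lift ⟨f, hf⟩ d.edge := by
      intro d
      rfl
    have h3 : ∑ d : G.Dart, Sym2.lift ⟨f, hf⟩ d.edge
        = ∑ e ∈ s, ∑ d ∈ univ.filter (fun d : G.Dart => d.edge = e),
          Sym2.lift ⟨f, hf⟩ d.edge := by
      rw [Finset.sum_fiberwise_of_maps_to]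
      intro d _
      rw [hs]
      exact d.edge_mem
    rw [Finset.sum_congr rfl (fun d _ => h2 d), h3, Finset.mul_sum]
    refine Finset.sum_congr rfl ?_
    intro e he
    rw [Finset.sum_congr rfl (g := fun _ => Sym2.lift ⟨f, hf⟩ e)]
    · rw [Finset.sum_const, SimpleGraph.dart_edge_fiber_card G e ((hs e).1 he)]
      simp [two_mul]
    · intro d hd
      rw [(mem_filter.1 hd).2]
  have h4 : ∑ d : G.Dart, f d.fst d.snd = ∑ u, ∑ v, if G.Adj u v then f u v else 0 := by
    rw [← Fintype.sum_prod_type', ← Finset.sum_filter]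
    refine Finset.sum_bij (fun d _ => d.toProd) ?_ ?_ ?_ ?_
    · intro d _
      simp [d.adj]
    · intro d _ d' _ h
      exact SimpleGraph.Dart.ext _ _ h
    · intro p hp
      exact ⟨⟨p, by simpa using hp⟩, by simp, rfl⟩
    · intro d _
      rfl
  rw [← h4, h1]
  ring

lemma Sz_eq (G : SimpleGraph V) (α : ℝ) :
    Sz G α = (1 / 2) * ∑ u, ∑ v,
      if G.Adj u v then ((closer G u v : ℝ) * (closer G v u : ℝ)) ^ α else 0 :=
  sum_edge G _ (fun e => by simp) _ _

lemma W_eq (G : SimpleGraph V) (α : ℝ) :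
    W G α = (1 / 2) * ∑ u, ∑ v, if u ≠ v then (G.dist u v : ℝ) ^ α else 0 := by
  have h := sum_edge (⊤ : SimpleGraph V)
    ((univ : Finset (Sym2 V)).filter (fun p => ¬ p.IsDiag)) (fun e => by simp)
    (fun x y => (G.dist x y : ℝ) ^ α) (fun x y => by simp only [G.dist_comm])
  unfold W
  rw [h]
  simp only [SimpleGraph.top_adj]

omit [Fintype V] in
/-- a criterion for the distance of a graph -/
lemma dist_eq (G : SimpleGraph V) (δ : V → V → ℕ) (h0 : ∀ x, δ x x = 0)
    (h0' : ∀ x y, δ x y = 0 → x = y)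
    (h1 : ∀ x y z, G.Adj y z → δ x z ≤ δ x y + 1)
    (h2 : ∀ x y, δ x y ≠ 0 → ∃ z, G.Adj z y ∧ δ x y = δ x z + 1) :
    (∀ x y, G.Reachable x y) ∧ ∀ x y, G.dist x y = δ x y := by
  have hle : ∀ x y (p : G.Walk x y), δ x y ≤ p.length := by
    intro x y p
    induction p using SimpleGraph.Walk.concatRec with
    | Hnil => simp [h0]
    | Hconcat p h ih =>
      rw [SimpleGraph.Walk.length_concat]
      exact (h1 _ _ _ h).trans (by omega)
  have hge : ∀ n x y, δ x y = n → ∃ p : G.Walk x y, p.length = n := by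
    intro n
    induction n with
    | zero =>
      intro x y h
      obtain rfl := h0' x y h
      exact ⟨SimpleGraph.Walk.nil, rfl⟩
    | succ n ih =>
      intro x y h
      obtain ⟨z, hz, hz'⟩ := h2 x y (by omega)
      obtain ⟨p, hp⟩ := ih x z (by omega)
      exact ⟨p.concat hz, by rw [SimpleGraph.Walk.length_concat, hp]⟩
  have hr : ∀ x y, G.Reachable x y := by
    intro x y
    obtain ⟨p, _⟩ := hge _ x y rfl
    exact ⟨p⟩
  refine ⟨hr, fun x y => ?_⟩
  obtain ⟨p, hp⟩ := hge _ x y rfl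
  obtain ⟨q, hq⟩ := (hr x y).exists_walk_length_eq_dist
  apply le_antisymm
  · rw [← hp]
    exact SimpleGraph.dist_le p
  · rw [← hq]
    exact hle x y q

end General

/-! ### The graph -/

/-- The vertices: `q` pairs of twins, `63` path vertices, `B` vertices of a clique. -/
abbrev VV (q B : ℕ) : Type := (Fin q × Fin 2) ⊕ (Fin 63 ⊕ Fin B)

variable {q B : ℕ}

/-- the distance -/
def del : VV q B → VV q B → ℕ
  | .inl x, .inl y => if x.1 ≠ y.1 then 1 else if x.2 ≠ y.2 then 2 else 0
  | .inl _, .inr (.inl k) => k.val + 1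
  | .inl _, .inr (.inr _) => 64
  | .inr (.inl k), .inl _ => k.val + 1
  | .inr (.inl k), .inr (.inl l) => (k.val - l.val) + (l.val - k.val)
  | .inr (.inl k), .inr (.inr _) => 63 - k.val
  | .inr (.inr _), .inl _ => 64
  | .inr (.inr _), .inr (.inl k) => 63 - k.val
  | .inr (.inr b), .inr (.inr c) => if b ≠ c then 1 else 0

lemma del_comm (x y : VV q B) : del x y = del y x := by
  rcases x with ⟨i, a⟩ | k | b <;> rcases y with ⟨j, a'⟩ | l | c <;> simp [del]
  · simp only [eq_comm]
  · omega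
  · simp only [eq_comm]

lemma del_self (x : VV q B) : del x x = 0 := by
  rcases x with ⟨i, a⟩ | k | b <;> simp [del]

lemma del_le (x y : VV q B) : del x y ≤ 64 := by
  rcases x with ⟨i, a⟩ | k | b <;> rcases y with ⟨j, a'⟩ | l | c <;> simp only [del] <;>
    first | omega | (split_ifs <;> omega)

lemma eq_of_del (x y : VV q B) (h : del x y = 0) : x = y := by
  rcases x with ⟨i, a⟩ | k | b <;> rcases y with ⟨j, a'⟩ | l | c <;> simp [del] at h ⊢
  · split_ifs at h with h1 h2
    exact ⟨h1, h2⟩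
  · omega
  · omega
  · omega
  · exact h

/-- the graph -/
def GG (q B : ℕ) : SimpleGraph (VV q B) where
  Adj x y := del x y = 1
  symm := by
    constructor
    intro x y h
    rw [del_comm]
    exact h
  loopless := by
    constructor
    intro x h
    rw [del_self] at h
    omega

lemma adj_iff (x y : VV q B) : (GG q B).Adj x y ↔ del x y = 1 := Iff.rfl

lemma GG_step (x y z : VV q B) (h : (GG q B).Adj y z) : del x z ≤ del x y + 1 := by
  rw [adj_iff] at h
  rcases x with ⟨i, a⟩ | k | b <;> rcases y with ⟨j, a'⟩ | l | c <;>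
    rcases z with ⟨j', a''⟩ | l' | c' <;> simp only [del] at h ⊢ <;>
    first | omega | (split_ifs at h ⊢ <;> omega)

lemma GG_pred (x y : VV q B) (h : del x y ≠ 0) :
    ∃ z, (GG q B).Adj z y ∧ del x y = del x z + 1 := by
  simp only [adj_iff]
  rcases x with ⟨i, a⟩ | k | b <;> rcases y with ⟨j, a'⟩ | l | c
  · by_cases hij : i ≠ j
    · exact ⟨.inl (i, a), by simp [del, hij], by simp [del, hij]⟩
    · push Not at hij
      subst hij
      have haa : a ≠ a' := by
        rintro rfl
        simp [del] at h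
      exact ⟨.inr (.inl 0), by simp [del], by simp [del, haa]⟩
  · by_cases hl : l.val = 0
    · exact ⟨.inl (i, a), by simp [del, hl], by simp [del, hl]⟩
    · refine ⟨.inr (.inl ⟨l.val - 1, by omega⟩), ?_, ?_⟩ <;> simp only [del] <;> omega
  · refine ⟨.inr (.inl ⟨62, by omega⟩), ?_, ?_⟩ <;> simp only [del]
  · refine ⟨.inr (.inl ⟨0, by omega⟩), ?_, ?_⟩
    · simp only [del]
    · simp only [del]
      omega
  · simp only [del] at h
    by_cases hkl : k.val < l.val
    · refine ⟨.inr (.inl ⟨l.val - 1, by omega⟩), ?_, ?_⟩ <;> simp only [del] <;> omega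
    · refine ⟨.inr (.inl ⟨l.val + 1, by omega⟩), ?_, ?_⟩ <;> simp only [del] <;> omega
  · refine ⟨.inr (.inl ⟨62, by omega⟩), ?_, ?_⟩ <;> simp only [del] <;> omega
  · refine ⟨.inr (.inl ⟨0, by omega⟩), ?_, ?_⟩
    · simp only [del]
    · simp only [del]
  · by_cases hl : l.val = 62
    · refine ⟨.inr (.inr b), ?_, ?_⟩ <;> simp [del, hl]
    · refine ⟨.inr (.inl ⟨l.val + 1, by omega⟩), ?_, ?_⟩ <;> (simp only [del]; omega)
  · have hbc : b ≠ c := by
      rintro rfl
      simp [del] at h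
    exact ⟨.inr (.inr b), by simp [del, hbc], by simp [del, hbc]⟩

lemma GG_reach (x y : VV q B) : (GG q B).Reachable x y :=
  (dist_eq (GG q B) del del_self eq_of_del GG_step GG_pred).1 x y

lemma GG_dist (x y : VV q B) : (GG q B).dist x y = del x y :=
  (dist_eq (GG q B) del del_self eq_of_del GG_step GG_pred).2 x y

lemma closer_eq (u v : VV q B) :
    closer (GG q B) u v = (univ.filter (fun w => del w u < del w v)).card := by
  unfold closer
  simp only [GG_dist]

lemma closer_pos (u v : VV q B) (h : (GG q B).Adj u v) : 0 < closer (GG q B) u v := by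
  rw [closer_eq, card_pos]
  refine ⟨u, ?_⟩
  simp only [mem_filter, mem_univ, true_and, del_self]
  rw [adj_iff] at h
  omega

/-! ### The numbers of closer vertices -/

/-- edges inside the cocktail party graph -/
lemma closer_AA (x y : Fin q × Fin 2) (h : x.1 ≠ y.1) :
    closer (GG q B) (.inl x) (.inl y) = 2 := by
  rw [closer_eq]
  have h1 : (univ.filter (fun w => del w (.inl x) < del w (.inl y)) : Finset (VV q B))
      = {.inl x, .inl (y.1, y.2 + 1)} := by
    ext w
    simp only [mem_filter, mem_univ, true_and, mem_insert, mem_singleton]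
    rcases w with ⟨j, a⟩ | l | c
    · rcases x with ⟨i, b⟩
      rcases y with ⟨k, c⟩
      simp only at h
      simp only [del, Sum.inl.injEq, Prod.mk.injEq]
      by_cases hji : j = i
      · subst hji
        by_cases hab : a = b
        · subst hab
          simp [h]
        · simp [hab, h]
      · by_cases hjk : j = k
        · subst hjk
          by_cases hac : a = c
          · subst hac
            simp [hji]
          · have : a = c + 1 := by
              clear h hji
              revert a c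
              decide
            simp [hji, this]
        · simp [hji, hjk]
    · simp [del]
    · simp [del]
  rw [h1, card_insert_of_notMem, card_singleton]
  simp only [mem_singleton, Sum.inl.injEq]
  rintro rfl
  exact h rfl

/-- edges inside the clique -/
lemma closer_BB (x y : Fin B) (h : x ≠ y) :
    closer (GG q B) (.inr (.inr x)) (.inr (.inr y)) = 1 := by
  rw [closer_eq, card_eq_one]
  refine ⟨.inr (.inr x), ?_⟩
  ext w
  simp only [mem_filter, mem_univ, true_and, mem_singleton]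
  rcases w with ⟨j, a⟩ | l | c
  · simp [del]
  · simp [del]
  · simp only [del, Sum.inr.injEq]
    by_cases hcx : c = x
    · subst hcx
      simp [h]
    · by_cases hcy : c = y
      · subst hcy
        simp [hcx]
      · simp [hcx, hcy]

/-- edges between the cocktail party graph and the path -/
lemma closer_AP (x : Fin q × Fin 2) (k : Fin 63) (h : (GG q B).Adj (.inl x) (.inr (.inl k))) :
    closer (GG q B) (.inl x) (.inr (.inl k)) = 1 := by
  rw [adj_iff] at h
  simp only [del] at h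
  rw [closer_eq, card_eq_one]
  refine ⟨.inl x, ?_⟩
  ext w
  simp only [mem_filter, mem_univ, true_and, mem_singleton]
  rcases w with ⟨j, a⟩ | l | c
  · rcases x with ⟨i, b⟩
    simp only [del, Sum.inl.injEq, Prod.mk.injEq]
    by_cases hji : j = i
    · by_cases hab : a = b
      · simp [hji, hab]
      · simp only [hji, hab, ne_eq, not_true_eq_false, not_false_eq_true, if_true, if_false,
          and_false, iff_false]
        omega
    · simp only [hji, ne_eq, not_false_eq_true, if_true, false_and, iff_false]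
      omega
  · simp only [del, reduceCtorEq, iff_false]
    omega
  · simp only [del, reduceCtorEq, iff_false]
    omega

lemma closer_PA_le (x : Fin q × Fin 2) (k : Fin 63) (h : (GG q B).Adj (.inl x) (.inr (.inl k))) :
    closer (GG q B) (.inr (.inl k)) (.inl x) ≤ B + 64 := by
  rw [adj_iff] at h
  simp only [del] at h
  rw [closer_eq]
  have h1 : (univ.filter (fun w => del w (.inr (.inl k)) < del w (.inl x)) : Finset (VV q B))
      ⊆ insert (.inl (x.1, x.2 + 1)) (univ.image (fun z : Fin 63 ⊕ Fin B => (.inr z : VV q B))) := by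
    intro w hw
    simp only [mem_filter, mem_univ, true_and] at hw
    rcases w with ⟨j, a⟩ | z
    · rw [mem_insert]
      left
      rcases x with ⟨i, b⟩
      simp only [del] at hw
      split_ifs at hw with h2 h3
      · omega
      · push Not at h2
        have : a = b + 1 := by
          clear hw h2 h
          revert a b
          decide
        rw [h2, this]
      · omega
    · rw [mem_insert]
      right
      exact mem_image_of_mem _ (mem_univ z)
  refine (card_le_card h1).trans ((card_insert_le _ _).trans ?_)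
  rw [card_image_of_injective _ Sum.inr_injective]
  simp
  omega

lemma closer_PA_ge (x : Fin q × Fin 2) (k : Fin 63) (h : (GG q B).Adj (.inl x) (.inr (.inl k))) :
    B ≤ closer (GG q B) (.inr (.inl k)) (.inl x) := by
  rw [adj_iff] at h
  simp only [del] at h
  rw [closer_eq]
  have h1 : (univ.image (fun z : Fin B => (.inr (.inr z) : VV q B)))
      ⊆ (univ.filter (fun w => del w (.inr (.inl k)) < del w (.inl x)) : Finset (VV q B)) := by
    intro w hw
    obtain ⟨z, _, rfl⟩ := mem_image.1 hw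
    refine mem_filter.2 ⟨mem_univ _, ?_⟩
    change 63 - k.val < 64
    omega
  refine le_trans ?_ (card_le_card h1)
  rw [card_image_of_injective]
  · simp
  · intro a b hab
    simpa using hab

/-- edges between the path and the clique -/
lemma closer_BP (b : Fin B) (k : Fin 63) (h : (GG q B).Adj (.inr (.inr b)) (.inr (.inl k))) :
    closer (GG q B) (.inr (.inr b)) (.inr (.inl k)) = 1 := by
  rw [adj_iff] at h
  simp only [del] at h
  rw [closer_eq, card_eq_one]
  refine ⟨.inr (.inr b), ?_⟩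
  ext w
  simp only [mem_filter, mem_univ, true_and, mem_singleton]
  rcases w with ⟨j, a⟩ | l | c
  · simp only [del, reduceCtorEq, iff_false]
    omega
  · simp only [del, reduceCtorEq, Sum.inr.injEq, iff_false]
    omega
  · simp only [del, Sum.inr.injEq]
    by_cases hcb : c = b
    · subst hcb
      simp
    · simp only [ne_eq, hcb, not_false_eq_true, if_true, iff_false]
      omega

lemma closer_le (u v : VV q B) : closer (GG q B) u v ≤ 2 * q + B + 63 := by
  unfold closer
  refine (card_le_univ _).trans ?_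
  simp
  omega

/-! ### The difference of the two indices -/

/-- the contribution of an ordered pair -/
noncomputable def F (q B : ℕ) (α : ℝ) (u v : VV q B) : ℝ :=
  (if (GG q B).Adj u v then
    ((closer (GG q B) u v : ℝ) * (closer (GG q B) v u : ℝ)) ^ α else 0)
    - (if u ≠ v then (del u v : ℝ) ^ α else 0)

/-- twice the difference -/
noncomputable def T (q B : ℕ) (α : ℝ) : ℝ := ∑ u, ∑ v, F q B α u v

lemma T_eq (α : ℝ) : Sz (GG q B) α - W (GG q B) α = (1 / 2) * T q B α := by
  rw [Sz_eq, W_eq, ← mul_sub, ← sum_sub_distrib]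
  unfold T F
  simp only [← sum_sub_distrib, GG_dist]

lemma T_cont : Continuous (T q B) := by
  unfold T F
  refine continuous_finsetSum _ fun u _ => continuous_finsetSum _ fun v _ => ?_
  refine Continuous.sub ?_ ?_
  · split_ifs with h
    · refine Real.continuous_const_rpow ?_
      have h1 := closer_pos u v h
      have h2 := closer_pos v u h.symm
      positivity
    · exact continuous_const
  · split_ifs with h
    · refine Real.continuous_const_rpow ?_
      have : del u v ≠ 0 := fun h' => h (eq_of_del u v h')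
      exact_mod_cast this
    · exact continuous_const

lemma F_AA (α : ℝ) (x y : Fin q × Fin 2) :
    F q B α (.inl x) (.inl y)
      = if x.1 = y.1 then (if x.2 = y.2 then 0 else -(2 : ℝ) ^ α) else (4 : ℝ) ^ α - 1 := by
  unfold F
  by_cases h1 : x.1 = y.1
  · have hna : ¬ (GG q B).Adj (.inl x) (.inl y) := by
      rw [adj_iff]
      by_cases h2 : x.2 = y.2 <;> simp [del, h1, h2]
    rw [if_neg hna, if_pos h1]
    by_cases h2 : x.2 = y.2
    · have hxy : x = y := Prod.ext h1 h2
      rw [if_pos h2, if_neg (by simp [hxy])]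
      simp
    · have hxy : (Sum.inl x : VV q B) ≠ .inl y := by
        intro h
        exact h2 (by rw [Sum.inl_injective h])
      rw [if_neg h2, if_pos hxy]
      simp [del, h1, h2]
  · have ha : (GG q B).Adj (.inl x) (.inl y) := by
      rw [adj_iff]
      simp [del, h1]
    have hxy : (Sum.inl x : VV q B) ≠ .inl y := by
      intro h
      exact h1 (by rw [Sum.inl_injective h])
    rw [if_pos ha, if_neg h1, if_pos hxy, closer_AA x y h1, closer_AA y x (Ne.symm h1)]
    simp only [del, ne_eq, h1, not_false_eq_true, if_true]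
    norm_num

lemma sum_AA (α : ℝ) (x : Fin q × Fin 2) :
    ∑ y, F q B α (.inl x) (.inl y) = (2 * (q : ℝ) - 2) * ((4 : ℝ) ^ α - 1) - (2 : ℝ) ^ α := by
  simp only [F_AA]
  rw [Fintype.sum_prod_type]
  obtain ⟨i, a⟩ := x
  have h : ∀ j : Fin q, (∑ b : Fin 2, if i = j then (if a = b then 0 else -(2 : ℝ) ^ α)
      else (4 : ℝ) ^ α - 1) = 2 * ((4 : ℝ) ^ α - 1)
        + (if i = j then -(2 : ℝ) ^ α - 2 * ((4 : ℝ) ^ α - 1) else 0) := by
    intro j
    by_cases hij : i = j
    · simp only [hij, if_true, Fin.sum_univ_two]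
      fin_cases a <;> simp
    · simp only [hij, if_false, Fin.sum_univ_two]
      ring
  simp only [h, sum_add_distrib, sum_const, card_univ, Fintype.card_fin, nsmul_eq_mul,
    sum_ite_eq, mem_univ, if_true]
  ring

lemma F_BB (α : ℝ) (x y : Fin B) : F q B α (.inr (.inr x)) (.inr (.inr y)) = 0 := by
  unfold F
  by_cases h : x = y
  · subst h
    simp
  · have ha : (GG q B).Adj (.inr (.inr x)) (.inr (.inr y)) := by
      rw [adj_iff]
      simp [del, h]
    rw [if_pos ha, if_pos ha.ne, closer_BB x y h, closer_BB y x (Ne.symm h)]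
    simp [del, h]

lemma F_AB (α : ℝ) (x : Fin q × Fin 2) (y : Fin B) :
    F q B α (.inl x) (.inr (.inr y)) = -(64 : ℝ) ^ α := by
  unfold F
  have ha : ¬ (GG q B).Adj (.inl x) (.inr (.inr y)) := by
    rw [adj_iff]
    simp [del]
  rw [if_neg ha, if_pos (by simp)]
  simp [del]

lemma F_comm (α : ℝ) (u v : VV q B) : F q B α u v = F q B α v u := by
  unfold F
  rw [del_comm u v, mul_comm (closer (GG q B) u v : ℝ)]
  simp only [(GG q B).adj_comm u v, ne_comm (a := u)]

lemma F_ge {α : ℝ} (hα : 0 ≤ α) (u v : VV q B) : -(64 : ℝ) ^ α ≤ F q B α u v := by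
  unfold F
  have h1 : 0 ≤ (if (GG q B).Adj u v then
      ((closer (GG q B) u v : ℝ) * (closer (GG q B) v u : ℝ)) ^ α else 0) := by
    split_ifs <;> positivity
  have h2 : (if u ≠ v then (del u v : ℝ) ^ α else 0) ≤ (64 : ℝ) ^ α := by
    split_ifs
    · refine Real.rpow_le_rpow (by positivity) ?_ hα
      exact_mod_cast del_le u v
    · positivity
  linarith

lemma F_le {α : ℝ} (hα : 0 ≤ α) (u v : VV q B) (c : ℝ) (hc : 0 ≤ c)
    (h : (GG q B).Adj u v → (closer (GG q B) u v : ℝ) * (closer (GG q B) v u : ℝ) ≤ c) :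
    F q B α u v ≤ c ^ α := by
  unfold F
  have h1 : (if (GG q B).Adj u v then
      ((closer (GG q B) u v : ℝ) * (closer (GG q B) v u : ℝ)) ^ α else 0) ≤ c ^ α := by
    split_ifs with h'
    · exact Real.rpow_le_rpow (by positivity) (h h') hα
    · positivity
  have h2 : 0 ≤ (if u ≠ v then (del u v : ℝ) ^ α else 0) := by
    split_ifs <;> positivity
  linarith

/-- lower bound for `T` -/
lemma T_ge {α : ℝ} (hα : 0 ≤ α) :
    2 * (q : ℝ) * ((2 * (q : ℝ) - 2) * ((4 : ℝ) ^ α - 1) - (2 : ℝ) ^ α)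
      - (64 : ℝ) ^ α * (2 * (2 * (q : ℝ) * B) + 2 * (2 * q * 63) + 2 * (63 * B) + 63 * 63)
      ≤ T q B α := by
  unfold T
  simp only [Fintype.sum_sum_type, sum_AA, F_AB, F_BB, F_comm α (.inr (.inr _)) (.inl _)]
  have h1 : ∀ x : Fin q × Fin 2, -(63 * (64 : ℝ) ^ α) ≤ ∑ k : Fin 63, F q B α (.inl x) (.inr (.inl k)) := by
    intro x
    have := Finset.card_nsmul_le_sum univ (fun k : Fin 63 => F q B α (.inl x) (.inr (.inl k)))
      (-(64 : ℝ) ^ α) (fun k _ => F_ge hα _ _)
    simpa using this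
  have h2 : ∀ k : Fin 63, -(2 * (q : ℝ) * (64 : ℝ) ^ α)
      ≤ ∑ x : Fin q × Fin 2, F q B α (.inr (.inl k)) (.inl x) := by
    intro k
    have := Finset.card_nsmul_le_sum univ
      (fun x : Fin q × Fin 2 => F q B α (.inr (.inl k)) (.inl x))
      (-(64 : ℝ) ^ α) (fun k _ => F_ge hα _ _)
    simp at this
    linarith
  have h3 : ∀ k : Fin 63, -(63 * (64 : ℝ) ^ α)
      ≤ ∑ l : Fin 63, F q B α (.inr (.inl k)) (.inr (.inl l)) := by
    intro k
    have := Finset.card_nsmul_le_sum univ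
      (fun l : Fin 63 => F q B α (.inr (.inl k)) (.inr (.inl l)))
      (-(64 : ℝ) ^ α) (fun k _ => F_ge hα _ _)
    simpa using this
  have h4 : ∀ k : Fin 63, -(B * (64 : ℝ) ^ α)
      ≤ ∑ b : Fin B, F q B α (.inr (.inl k)) (.inr (.inr b)) := by
    intro k
    have := Finset.card_nsmul_le_sum univ
      (fun b : Fin B => F q B α (.inr (.inl k)) (.inr (.inr b)))
      (-(64 : ℝ) ^ α) (fun k _ => F_ge hα _ _)
    simpa using this
  have h5 : ∀ b : Fin B, -(63 * (64 : ℝ) ^ α)
      ≤ ∑ k : Fin 63, F q B α (.inr (.inr b)) (.inr (.inl k)) := by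
    intro b
    have := Finset.card_nsmul_le_sum univ
      (fun k : Fin 63 => F q B α (.inr (.inr b)) (.inr (.inl k)))
      (-(64 : ℝ) ^ α) (fun k _ => F_ge hα _ _)
    simpa using this
  have H1 := Finset.card_nsmul_le_sum univ (fun x : Fin q × Fin 2 =>
    ((2 * (q : ℝ) - 2) * ((4 : ℝ) ^ α - 1) - (2 : ℝ) ^ α) +
      (∑ k : Fin 63, F q B α (.inl x) (.inr (.inl k)) + ∑ b : Fin B, -(64 : ℝ) ^ α))
    (((2 * (q : ℝ) - 2) * ((4 : ℝ) ^ α - 1) - (2 : ℝ) ^ α) +
      (-(63 * (64 : ℝ) ^ α) + -(B * (64 : ℝ) ^ α))) (by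
        intro x _
        have := h1 x
        simp only [sum_const, card_univ, Fintype.card_fin, nsmul_eq_mul]
        linarith)
  have H2 := Finset.card_nsmul_le_sum univ (fun k : Fin 63 =>
    (∑ x : Fin q × Fin 2, F q B α (.inr (.inl k)) (.inl x)) +
      (∑ l : Fin 63, F q B α (.inr (.inl k)) (.inr (.inl l)) +
        ∑ b : Fin B, F q B α (.inr (.inl k)) (.inr (.inr b))))
    (-(2 * (q : ℝ) * (64 : ℝ) ^ α) + (-(63 * (64 : ℝ) ^ α) + -(B * (64 : ℝ) ^ α)))
    (fun k _ => add_le_add (h2 k) (add_le_add (h3 k) (h4 k)))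
  have H3 := Finset.card_nsmul_le_sum univ (fun b : Fin B =>
    (∑ x : Fin q × Fin 2, -(64 : ℝ) ^ α) +
      (∑ k : Fin 63, F q B α (.inr (.inr b)) (.inr (.inl k)) + ∑ c : Fin B, (0 : ℝ)))
    (-(2 * (q : ℝ) * (64 : ℝ) ^ α) + (-(63 * (64 : ℝ) ^ α) + 0)) (by
        intro b _
        have := h5 b
        simp only [sum_const, card_univ, Fintype.card_prod, Fintype.card_fin, nsmul_eq_mul,
          Nat.cast_mul, Nat.cast_ofNat, mul_zero]
        linarith)
  simp only [card_univ, Fintype.card_prod, Fintype.card_fin, nsmul_eq_mul,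
          Nat.cast_mul, Nat.cast_ofNat] at H1 H2 H3
  linarith

/-- lower bound for `T (2)` -/
lemma T_two : 2 * (q : ℝ) * ((2 * (q : ℝ) - 2) * 15 - 4)
      + 2 * (2 * (q : ℝ) * ((B : ℝ) ^ 2 - 63 * 4096))
      - 4096 * (2 * (2 * (q : ℝ) * B) + 2 * (63 * B) + 63 * 63)
      ≤ T q B 2 := by
  have e2 : (2 : ℝ) ^ (2 : ℝ) = 4 := by norm_num
  have e4 : (4 : ℝ) ^ (2 : ℝ) = 16 := by norm_num
  have e64 : (64 : ℝ) ^ (2 : ℝ) = 4096 := by norm_num
  have h0 : ∀ u v : VV q B, -(4096 : ℝ) ≤ F q B 2 u v := by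
    intro u v
    have := F_ge (α := 2) (by norm_num) u v
    rwa [e64] at this
  have hk0 : ∀ x : Fin q × Fin 2, (B : ℝ) ^ 2 - 4096 ≤ F q B 2 (.inl x) (.inr (.inl 0)) := by
    intro x
    have ha : (GG q B).Adj (.inl x) (.inr (.inl 0)) := by
      rw [adj_iff]
      simp [del]
    unfold F
    rw [if_pos ha, if_pos (by simp), closer_AP x 0 ha]
    have h1 : (B : ℝ) ≤ (closer (GG q B) (.inr (.inl 0)) (.inl x) : ℝ) := by
      exact_mod_cast closer_PA_ge x 0 ha
    have h2 : (B : ℝ) ^ 2 ≤ (((1 : ℕ) : ℝ) * (closer (GG q B) (.inr (.inl 0)) (.inl x) : ℝ)) ^ (2 : ℝ) := by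
      rw [Nat.cast_one, one_mul, Real.rpow_two]
      exact pow_le_pow_left₀ (by positivity) h1 2
    have h3 : ((del (q := q) (B := B) (.inl x) (.inr (.inl 0)) : ℕ) : ℝ) ^ (2 : ℝ) ≤ 4096 := by
      simp [del]
    linarith
  have h1 : ∀ x : Fin q × Fin 2, (B : ℝ) ^ 2 - 63 * 4096
      ≤ ∑ k : Fin 63, F q B 2 (.inl x) (.inr (.inl k)) := by
    intro x
    rw [Fin.sum_univ_succ]
    have := Finset.card_nsmul_le_sum univ
      (fun k : Fin 62 => F q B 2 (.inl x) (.inr (.inl k.succ)))
      (-4096) (fun k _ => h0 _ _)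
    simp at this
    have h2 := hk0 x
    linarith
  have h2 : 2 * (q : ℝ) * ((B : ℝ) ^ 2 - 63 * 4096)
      ≤ ∑ k : Fin 63, ∑ x : Fin q × Fin 2, F q B 2 (.inr (.inl k)) (.inl x) := by
    rw [sum_comm]
    have := Finset.card_nsmul_le_sum univ
      (fun x : Fin q × Fin 2 => ∑ k : Fin 63, F q B 2 (.inr (.inl k)) (.inl x))
      ((B : ℝ) ^ 2 - 63 * 4096) (fun x _ => by
        simp only [F_comm 2 (.inr (.inl _)) (.inl x)]
        exact h1 x)
    simp at this
    linarith
  have h3 : ∀ k : Fin 63, -(63 * (4096 : ℝ))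
      ≤ ∑ l : Fin 63, F q B 2 (.inr (.inl k)) (.inr (.inl l)) := by
    intro k
    have := Finset.card_nsmul_le_sum univ
      (fun l : Fin 63 => F q B 2 (.inr (.inl k)) (.inr (.inl l)))
      (-4096) (fun k _ => h0 _ _)
    simp at this
    linarith
  have h4 : ∀ k : Fin 63, -(B * (4096 : ℝ))
      ≤ ∑ b : Fin B, F q B 2 (.inr (.inl k)) (.inr (.inr b)) := by
    intro k
    have := Finset.card_nsmul_le_sum univ
      (fun b : Fin B => F q B 2 (.inr (.inl k)) (.inr (.inr b)))
      (-4096) (fun k _ => h0 _ _)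
    simp at this
    linarith
  have h5 : ∀ b : Fin B, -(63 * (4096 : ℝ))
      ≤ ∑ k : Fin 63, F q B 2 (.inr (.inr b)) (.inr (.inl k)) := by
    intro b
    have := Finset.card_nsmul_le_sum univ
      (fun k : Fin 63 => F q B 2 (.inr (.inr b)) (.inr (.inl k)))
      (-4096) (fun k _ => h0 _ _)
    simp at this
    linarith
  unfold T
  simp only [Fintype.sum_sum_type, sum_AA, F_AB, F_BB, F_comm 2 (.inr (.inr _)) (.inl _), e2, e4,
    e64]
  have H1 := Finset.card_nsmul_le_sum univ (fun x : Fin q × Fin 2 =>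
    ((2 * (q : ℝ) - 2) * ((16 : ℝ) - 1) - (4 : ℝ)) +
      (∑ k : Fin 63, F q B 2 (.inl x) (.inr (.inl k)) + ∑ b : Fin B, -(4096 : ℝ)))
    (((2 * (q : ℝ) - 2) * ((16 : ℝ) - 1) - (4 : ℝ)) +
      (((B : ℝ) ^ 2 - 63 * 4096) + -(B * (4096 : ℝ)))) (by
        intro x _
        have := h1 x
        simp only [sum_const, card_univ, Fintype.card_fin, nsmul_eq_mul]
        linarith)
  have H2 := Finset.card_nsmul_le_sum univ (fun k : Fin 63 =>
      (∑ l : Fin 63, F q B 2 (.inr (.inl k)) (.inr (.inl l)) +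
        ∑ b : Fin B, F q B 2 (.inr (.inl k)) (.inr (.inr b))))
    (-(63 * (4096 : ℝ)) + -(B * (4096 : ℝ)))
    (fun k _ => (add_le_add (h3 k) (h4 k)))
  have H3 := Finset.card_nsmul_le_sum univ (fun b : Fin B =>
    (∑ x : Fin q × Fin 2, -(4096 : ℝ)) +
      (∑ k : Fin 63, F q B 2 (.inr (.inr b)) (.inr (.inl k)) + ∑ c : Fin B, (0 : ℝ)))
    (-(2 * (q : ℝ) * (4096 : ℝ)) + (-(63 * (4096 : ℝ)) + 0)) (by
        intro b _
        have := h5 b
        simp only [sum_const, card_univ, Fintype.card_prod, Fintype.card_fin, nsmul_eq_mul,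
          Nat.cast_mul, Nat.cast_ofNat, mul_zero]
        linarith)
  rw [sum_add_distrib (s := (univ : Finset (Fin 63)))]
  simp only [card_univ, Fintype.card_prod, Fintype.card_fin, nsmul_eq_mul,
          Nat.cast_mul, Nat.cast_ofNat] at H1 H2 H3
  linarith

/-- upper bound for `T (1/2)` -/
lemma T_half : T q B (1 / 2) ≤ 2 * (q : ℝ) * (2 * (q : ℝ) - 2) - 16 * (2 * (q : ℝ) * B)
      + 2 * (2 * (q : ℝ) * (63 * ((B : ℝ) + 64) ^ (1 / 2 : ℝ)))
      + 2 * (63 * (B * (2 * (q : ℝ) + B + 63) ^ (1 / 2 : ℝ)))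
      + 63 * (63 * (2 * (q : ℝ) + B + 63)) := by
  have e4 : (4 : ℝ) ^ (1 / 2 : ℝ) = 2 := by
    rw [show (4 : ℝ) = 2 ^ (2 : ℝ) by norm_num, ← Real.rpow_mul (by norm_num)]
    norm_num
  have e64 : (64 : ℝ) ^ (1 / 2 : ℝ) = 8 := by
    rw [show (64 : ℝ) = 8 ^ (2 : ℝ) by norm_num, ← Real.rpow_mul (by norm_num)]
    norm_num
  have hh : (0 : ℝ) ≤ 1 / 2 := by norm_num
  have hcl : ∀ u v : VV q B, (closer (GG q B) u v : ℝ) ≤ 2 * (q : ℝ) + B + 63 := by
    intro u v
    exact_mod_cast closer_le u v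
  have h1 : ∀ (x : Fin q × Fin 2) (k : Fin 63),
      F q B (1 / 2) (.inl x) (.inr (.inl k)) ≤ ((B : ℝ) + 64) ^ (1 / 2 : ℝ) := by
    intro x k
    refine F_le hh _ _ _ (by positivity) ?_
    intro ha
    rw [closer_AP x k ha, Nat.cast_one, one_mul]
    exact_mod_cast closer_PA_le x k ha
  have h2 : ∀ (b : Fin B) (k : Fin 63),
      F q B (1 / 2) (.inr (.inr b)) (.inr (.inl k)) ≤ (2 * (q : ℝ) + B + 63) ^ (1 / 2 : ℝ) := by
    intro b k
    refine F_le hh _ _ _ (by positivity) ?_
    intro ha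
    rw [closer_BP b k ha, Nat.cast_one, one_mul]
    exact hcl _ _
  have h3 : ∀ (l k : Fin 63),
      F q B (1 / 2) (.inr (.inl l)) (.inr (.inl k)) ≤ 2 * (q : ℝ) + B + 63 := by
    intro l k
    have h4 := F_le hh (.inr (.inl l) : VV q B) (.inr (.inl k))
      ((2 * (q : ℝ) + B + 63) ^ (2 : ℝ)) (by positivity) (fun _ => by
        rw [Real.rpow_two, sq]
        exact mul_le_mul (hcl _ _) (hcl _ _) (by positivity) (by positivity))
    rwa [← Real.rpow_mul (by positivity), show (2 : ℝ) * (1 / 2) = 1 by norm_num,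
      Real.rpow_one] at h4
  have p2 : (0 : ℝ) ≤ (2 : ℝ) ^ (1 / 2 : ℝ) := by positivity
  unfold T
  simp only [Fintype.sum_sum_type, sum_AA, F_AB, F_BB, F_comm (1 / 2) (.inr (.inr _)) (.inl _),
    F_comm (1 / 2) (.inr (.inl _)) (.inl _), F_comm (1 / 2) (.inr (.inl _)) (.inr (.inr _)),
    e4, e64]
  set S : ℝ := ((B : ℝ) + 64) ^ (1 / 2 : ℝ)
  set R : ℝ := (2 * (q : ℝ) + B + 63) ^ (1 / 2 : ℝ)
  have H1 := Finset.sum_le_card_nsmul univ (fun x : Fin q × Fin 2 =>
    ((2 * (q : ℝ) - 2) * ((2 : ℝ) - 1) - (2 : ℝ) ^ (1 / 2 : ℝ)) +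
      (∑ k : Fin 63, F q B (1 / 2) (.inl x) (.inr (.inl k)) + ∑ b : Fin B, -(8 : ℝ)))
    ((2 * (q : ℝ) - 2) + (63 * S + -(B * (8 : ℝ)))) (by
        intro x _
        have := Finset.sum_le_card_nsmul univ
          (fun k : Fin 63 => F q B (1 / 2) (.inl x) (.inr (.inl k))) S (fun k _ => h1 x k)
        simp only [sum_const, card_univ, Fintype.card_fin, nsmul_eq_mul, Nat.cast_ofNat] at this ⊢
        linarith)
  have H2 := Finset.sum_le_card_nsmul univ (fun k : Fin 63 =>
    (∑ x : Fin q × Fin 2, F q B (1 / 2) (.inl x) (.inr (.inl k))) +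
      (∑ l : Fin 63, F q B (1 / 2) (.inr (.inl k)) (.inr (.inl l)) +
        ∑ b : Fin B, F q B (1 / 2) (.inr (.inr b)) (.inr (.inl k))))
    (2 * (q : ℝ) * S + (63 * (2 * (q : ℝ) + B + 63) + B * R)) (by
        intro k _
        have t1 := Finset.sum_le_card_nsmul univ
          (fun x : Fin q × Fin 2 => F q B (1 / 2) (.inl x) (.inr (.inl k))) S (fun x _ => h1 x k)
        have t2 := Finset.sum_le_card_nsmul univ
          (fun l : Fin 63 => F q B (1 / 2) (.inr (.inl k)) (.inr (.inl l)))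
          (2 * (q : ℝ) + B + 63) (fun l _ => h3 k l)
        have t3 := Finset.sum_le_card_nsmul univ
          (fun b : Fin B => F q B (1 / 2) (.inr (.inr b)) (.inr (.inl k))) R (fun b _ => h2 b k)
        simp only [card_univ, Fintype.card_prod, Fintype.card_fin, nsmul_eq_mul, Nat.cast_mul,
          Nat.cast_ofNat] at t1 t2 t3
        linarith)
  have H3 := Finset.sum_le_card_nsmul univ (fun b : Fin B =>
    (∑ x : Fin q × Fin 2, -(8 : ℝ)) +
      (∑ k : Fin 63, F q B (1 / 2) (.inr (.inr b)) (.inr (.inl k)) + ∑ c : Fin B, (0 : ℝ)))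
    (-(2 * (q : ℝ) * (8 : ℝ)) + (63 * R + 0)) (by
        intro b _
        have := Finset.sum_le_card_nsmul univ
          (fun k : Fin 63 => F q B (1 / 2) (.inr (.inr b)) (.inr (.inl k))) R (fun k _ => h2 b k)
        simp only [sum_const, card_univ, Fintype.card_prod, Fintype.card_fin, nsmul_eq_mul,
          Nat.cast_mul, Nat.cast_ofNat, mul_zero] at this ⊢
        linarith)
  simp only [card_univ, Fintype.card_prod, Fintype.card_fin, nsmul_eq_mul,
          Nat.cast_mul, Nat.cast_ofNat] at H1 H2 H3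
  linarith

/-- `T` is negative at zero -/
lemma T_zero (hq : 0 < q) (hB : 0 < B) : T q B 0 < 0 := by
  have h0 : ∀ u v : VV q B, F q B 0 u v ≤ 0 := by
    intro u v
    unfold F
    by_cases ha : (GG q B).Adj u v
    · rw [if_pos ha, if_pos ha.ne]
      simp
    · rw [if_neg ha]
      split_ifs <;> simp
  unfold T
  let a : VV q B := .inl (⟨0, hq⟩, 0)
  let b : VV q B := .inr (.inr ⟨0, hB⟩)
  have h1 : ∑ u : VV q B, ∑ v : VV q B, F q B 0 u v < ∑ u : VV q B, (0 : ℝ) := by
    refine Finset.sum_lt_sum (fun u _ => Finset.sum_nonpos (fun v _ => h0 u v)) ⟨a, mem_univ a, ?_⟩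
    have h2 : ∑ v : VV q B, F q B 0 a v < ∑ v : VV q B, (0 : ℝ) := by
      refine Finset.sum_lt_sum (fun v _ => h0 a v) ⟨b, mem_univ b, ?_⟩
      change F q B 0 (.inl _) (.inr (.inr _)) < 0
      rw [F_AB]
      simp
    simpa using h2
  simpa using h1

/-- There is a finite, connected, non-complete graph whose variable Szeged index and variable Wiener
index agree for (at least) three distinct real exponents. -/
theorem result : ∃ (V : Type) (_ : Fintype V) (G : SimpleGraph V), G.Connected ∧ G ≠ ⊤ ∧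
    ∃ a b c : ℝ, a < b ∧ b < c ∧ Sz G a = W G a ∧ Sz G b = W G b ∧ Sz G c = W G c := by
  have e4 : (1.41421 : ℝ) ≤ (4 : ℝ) ^ (1 / 4 : ℝ) := by
    rw [show (1.41421 : ℝ) = ((1.41421 : ℝ) ^ (4 : ℝ)) ^ (1 / 4 : ℝ) by
      rw [← Real.rpow_mul (by norm_num)]; norm_num]
    refine Real.rpow_le_rpow (by positivity) ?_ (by norm_num)
    norm_num
  have e2 : (2 : ℝ) ^ (1 / 4 : ℝ) ≤ 2 := by
    rw [show (2 : ℝ) ^ (1 / 4 : ℝ) ≤ 2 ↔ (2 : ℝ) ^ (1 / 4 : ℝ) ≤ (2 : ℝ) ^ (1 : ℝ) by
      rw [Real.rpow_one]]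
    exact Real.rpow_le_rpow_of_exponent_le (by norm_num) (by norm_num)
  have e64 : (64 : ℝ) ^ (1 / 4 : ℝ) ≤ 2.8285 := by
    rw [show (2.8285 : ℝ) = ((2.8285 : ℝ) ^ (4 : ℝ)) ^ (1 / 4 : ℝ) by
      rw [← Real.rpow_mul (by norm_num)]; norm_num]
    refine Real.rpow_le_rpow (by positivity) ?_ (by norm_num)
    norm_num
  have eS : ((100000 : ℝ) + 64) ^ (1 / 2 : ℝ) ≤ 320 := by
    rw [show (320 : ℝ) = ((320 : ℝ) ^ (2 : ℝ)) ^ (1 / 2 : ℝ) by
      rw [← Real.rpow_mul (by norm_num)]; norm_num]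
    refine Real.rpow_le_rpow (by positivity) ?_ (by norm_num)
    norm_num
  have eR : (2 * (750000 : ℝ) + 100000 + 63) ^ (1 / 2 : ℝ) ≤ 1300 := by
    rw [show (1300 : ℝ) = ((1300 : ℝ) ^ (2 : ℝ)) ^ (1 / 2 : ℝ) by
      rw [← Real.rpow_mul (by norm_num)]; norm_num]
    refine Real.rpow_le_rpow (by positivity) ?_ (by norm_num)
    norm_num
  obtain ⟨q, hq⟩ : ∃ q : ℕ, q = 750000 := ⟨_, rfl⟩
  obtain ⟨B, hB⟩ : ∃ B : ℕ, B = 100000 := ⟨_, rfl⟩
  have hq' : (q : ℝ) = 750000 := by rw [hq]; norm_num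
  have hB' : (B : ℝ) = 100000 := by rw [hB]; norm_num
  have t0 : T q B 0 < 0 := T_zero (by omega) (by omega)
  have t1 : 0 < T q B (1 / 4) := by
    refine lt_of_lt_of_le ?_ (T_ge (by norm_num))
    rw [hq', hB']
    linarith
  have t2 : T q B (1 / 2) < 0 := by
    refine lt_of_le_of_lt T_half ?_
    rw [hq', hB']
    linarith
  have t3 : 0 < T q B 2 := by
    refine lt_of_lt_of_le ?_ T_two
    rw [hq', hB']
    norm_num
  have hc : Continuous (T q B) := T_cont
  have hz : ∀ α, T q B α = 0 → Sz (GG q B) α = W (GG q B) α := by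
    intro α h
    have := T_eq (q := q) (B := B) α
    rw [h] at this
    linarith
  obtain ⟨a, ha, ha'⟩ := intermediate_value_Ioo (by norm_num : (0 : ℝ) ≤ 1 / 4)
    hc.continuousOn (show (0 : ℝ) ∈ Set.Ioo _ _ from ⟨t0, t1⟩)
  obtain ⟨b, hb, hb'⟩ := intermediate_value_Ioo' (by norm_num : (1 / 4 : ℝ) ≤ 1 / 2)
    hc.continuousOn (show (0 : ℝ) ∈ Set.Ioo _ _ from ⟨t2, t1⟩)
  obtain ⟨c, hc1, hc'⟩ := intermediate_value_Ioo (by norm_num : (1 / 2 : ℝ) ≤ 2)
    hc.continuousOn (show (0 : ℝ) ∈ Set.Ioo _ _ from ⟨t2, t3⟩)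
  have hne : Nonempty (VV q B) := ⟨.inr (.inl 0)⟩
  refine ⟨VV q B, inferInstance, GG q B, ⟨fun x y => GG_reach x y⟩, ?_, a, b, c,
    ha.2.trans hb.1, hb.2.trans hc1.1, hz a ha', hz b hb', hz c hc'⟩
  intro h
  have h1 : (GG q B).Adj (.inl (⟨0, by omega⟩, 0)) (.inr (.inr ⟨0, by omega⟩)) := by
    rw [h]
    simp
  rw [adj_iff] at h1
  simp [del] at h1

end Pool.Agent.Results.MP_dd6dde_co.ThreeZeros
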